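import Pool.Agent.helper85.SQ.Defs
import Pool.Agent.helper85.BVP.Second
import Pool.Agent.helper96.SQ.UP
import Pool.Agent.helper97.SQ.PH
import Pool.Agent.helper61.SQ.BO

/-!
# SQ project: second moment and upper bound
-/

namespace Pool.Agent.helper85.SQ

open Finset ArithmeticFunction Pool.Agent.helper85.BVP

/-- the number of pairs `(a, p)`. -/
theorem sum_card_Rp_le : ∃ (C : ℝ) (D : ℕ), 0 < C ∧ ∀ X P : ℕ, D ≤ X → D ≤ P →
    ∑ a ∈ Ioc 0 X, (#(Rp a P) : ℝ) ≤ C * (EE X P * X) := by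
  obtain ⟨C, D, hC, hCD⟩ := one_le
  refine ⟨C * 8, max D 2, by positivity, ?_⟩
  intro X P hX hP
  have hX1 : D ≤ X := le_trans (le_max_left _ _) hX
  have hX2 : 2 ≤ X := le_trans (le_max_right _ _) hX
  have hP2 : 2 ≤ P := le_trans (le_max_right _ _) hP
  have hXr : (0 : ℝ) < X := by exact_mod_cast (by omega : 0 < X)
  have hlogX : 0 < Real.log X := Real.log_pos (by exact_mod_cast (by omega : 1 < X))
  set S : Finset ℕ := {p ∈ Ioc 0 P | p.Prime} with hS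
  have e : ∑ a ∈ Ioc 0 X, (#(Rp a P) : ℝ)
      = ∑ p ∈ S, (#{a ∈ Ioc 0 X | (a * p ^ 2 - 1).Prime} : ℝ) := by
    have h1 : ∀ a, (#(Rp a P) : ℝ) = ∑ p ∈ S, if (a * p ^ 2 - 1).Prime then (1 : ℝ) else 0 := by
      intro a
      rw [← sum_filter, sum_const, nsmul_eq_mul, mul_one, Rp, hS, filter_filter]
    have h2 : ∀ p, (#{a ∈ Ioc 0 X | (a * p ^ 2 - 1).Prime} : ℝ)
        = ∑ a ∈ Ioc 0 X, if (a * p ^ 2 - 1).Prime then (1 : ℝ) else 0 := by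
      intro p
      rw [← sum_filter, sum_const, nsmul_eq_mul, mul_one]
    simp_rw [h1, h2]
    exact sum_comm
  rw [e]
  have hSP : ∀ p ∈ S, p.Prime ∧ p ≤ P := by
    intro p hp
    rw [hS, mem_filter, mem_Ioc] at hp
    exact ⟨hp.2, hp.1.2⟩
  have hcard := card_primes_le P hP2 S hSP
  have hh : ∀ p ∈ S, (#{a ∈ Ioc 0 X | (a * p ^ 2 - 1).Prime} : ℝ) ≤ C * (X / Real.log X) := by
    intro p hp
    exact hCD X hX1 p (hSP p hp).1
  have h5 := Finset.sum_le_sum hh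
  rw [sum_const, nsmul_eq_mul] at h5
  refine h5.trans ?_
  have hlogP : 0 < Real.log P := Real.log_pos (by exact_mod_cast (by omega : 1 < P))
  have hq : 0 ≤ (P : ℝ) / Real.log P := by positivity
  have h6 : (#S : ℝ) ≤ 8 * (P / Real.log P) := by linarith
  have h7 : (#S : ℝ) * (C * (X / Real.log X)) ≤ (8 * (P / Real.log P)) * (C * (X / Real.log X)) :=
    mul_le_mul_of_nonneg_right h6 (by positivity)
  refine h7.trans (le_of_eq ?_)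
  unfold EE
  field_simp

/-- **The second moment.** -/
theorem second_moment : ∃ (C : ℝ) (D : ℕ), 0 < C ∧ ∀ X P : ℕ, D ≤ X → D ≤ P →
    ∑ a ∈ Ioc 0 X, (#(Rp a P) : ℝ) ^ 2 ≤ C * (X * (EE X P + EE X P ^ 2)) := by
  obtain ⟨C₀, D₀, hC₀, h₀⟩ := sum_card_Rp_le
  obtain ⟨C₁, D₁, hC₁, h₁⟩ := both_sq
  obtain ⟨C₂, D₂, hC₂, h₂⟩ := pairs_h
  refine ⟨C₀ + 2 * (C₁ * C₂), max (max D₀ 2) (max D₁ D₂), by positivity, ?_⟩
  intro X P hX hP
  have hX0 : D₀ ≤ X := le_trans (le_trans (le_max_left _ _) (le_max_left _ _)) hX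
  have hP0 : D₀ ≤ P := le_trans (le_trans (le_max_left _ _) (le_max_left _ _)) hP
  have hX2 : 2 ≤ X := le_trans (le_trans (le_max_right _ _) (le_max_left _ _)) hX
  have hP2 : 2 ≤ P := le_trans (le_trans (le_max_right _ _) (le_max_left _ _)) hP
  have hX1 : D₁ ≤ X := le_trans (le_trans (le_max_left _ _) (le_max_right _ _)) hX
  have hPD : D₂ ≤ P := le_trans (le_trans (le_max_right _ _) (le_max_right _ _)) hP
  have hXr : (0 : ℝ) < X := by exact_mod_cast (by omega : 0 < X)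
  have hPr : (0 : ℝ) < P := by exact_mod_cast (by omega : 0 < P)
  have hlogX : 0 < Real.log X := Real.log_pos (by exact_mod_cast (by omega : 1 < X))
  have hlogP : 0 < Real.log P := Real.log_pos (by exact_mod_cast (by omega : 1 < P))
  set S : Finset ℕ := {p ∈ Ioc 0 P | p.Prime} with hS
  have hSP : ∀ p ∈ S, p.Prime ∧ p ≤ P := by
    intro p hp
    rw [hS, mem_filter, mem_Ioc] at hp
    exact ⟨hp.2, hp.1.2⟩
  have hsub : ∀ a, Rp a P ⊆ S := by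
    intro a p hp
    rw [Rp, mem_filter] at hp
    rw [hS, mem_filter]
    exact ⟨hp.1, hp.2.1⟩
  have e1 : ∀ a ∈ Ioc 0 X, (#(Rp a P) : ℝ) ^ 2 = #(Rp a P)
      + 2 * ∑ q₁ ∈ S, ∑ q₂ ∈ S with q₁ < q₂,
      (if q₁ ∈ Rp a P ∧ q₂ ∈ Rp a P then (1 : ℝ) else 0) :=
    fun a _ => card_sq_le S (Rp a P) (hsub a)
  rw [sum_congr rfl e1, sum_add_distrib, ← mul_sum, sum_comm]
  have h3 : ∀ q₁ ∈ S, ∑ a ∈ Ioc 0 X, ∑ q₂ ∈ S with q₁ < q₂,
      (if q₁ ∈ Rp a P ∧ q₂ ∈ Rp a P then (1 : ℝ) else 0)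
      ≤ ∑ q₂ ∈ S with q₁ < q₂, C₁ * (X / Real.log X ^ 2) * h (q₂ ^ 2 - q₁ ^ 2) ^ 2 := by
    intro q₁ hq₁
    rw [sum_comm]
    refine sum_le_sum fun q₂ hq₂ => ?_
    rw [mem_filter] at hq₂
    rw [← sum_filter, sum_const, nsmul_eq_mul, mul_one]
    refine le_trans ?_ (h₁ X hX1 q₁ q₂ (hSP q₁ hq₁).1 (hSP q₂ hq₂.1).1 hq₂.2)
    have : #{a ∈ Ioc 0 X | q₁ ∈ Rp a P ∧ q₂ ∈ Rp a P}
        ≤ #{a ∈ Ioc 0 X | (a * q₁ ^ 2 - 1).Prime ∧ (a * q₂ ^ 2 - 1).Prime} := by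
      refine card_le_card ?_
      intro a ha
      rw [mem_filter, Rp, mem_filter, mem_filter] at ha
      rw [mem_filter]
      exact ⟨ha.1, ha.2.1.2.2, ha.2.2.2.2⟩
    exact_mod_cast this
  have h4 := sum_le_sum h3
  have e2 : ∑ q₁ ∈ S, ∑ q₂ ∈ S with q₁ < q₂,
        C₁ * (X / Real.log X ^ 2) * h (q₂ ^ 2 - q₁ ^ 2) ^ 2
      = C₁ * (X / Real.log X ^ 2) * ∑ q₁ ∈ S, ∑ q₂ ∈ S with q₁ < q₂,
        h (q₂ ^ 2 - q₁ ^ 2) ^ 2 := by
    rw [mul_sum]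
    exact sum_congr rfl fun q₁ _ => by rw [mul_sum]
  rw [e2] at h4
  have h5 : C₁ * (X / Real.log X ^ 2) * ∑ q₁ ∈ S, ∑ q₂ ∈ S with q₁ < q₂,
        h (q₂ ^ 2 - q₁ ^ 2) ^ 2 ≤ C₁ * (X / Real.log X ^ 2) * (C₂ * (P / Real.log P) ^ 2) :=
    mul_le_mul_of_nonneg_left (h₂ P hPD S hSP) (by positivity)
  have h6 := h₀ X P hX0 hP0
  have hE : 0 ≤ EE X P := by unfold EE; positivity
  have e3 : C₁ * (X / Real.log X ^ 2) * (C₂ * (P / Real.log P) ^ 2)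
      = C₁ * C₂ * (X * EE X P ^ 2) := by
    unfold EE
    field_simp
  rw [e3] at h5
  have h7 : 0 ≤ 2 * (C₁ * C₂) * (X * EE X P) := by positivity
  have h8 : 0 ≤ C₀ * (X * EE X P ^ 2) := by positivity
  calc _ ≤ C₀ * (EE X P * X) + 2 * (C₁ * C₂ * (X * EE X P ^ 2)) :=
        add_le_add h6 (mul_le_mul_of_nonneg_left (h4.trans h5) (by norm_num))
    _ ≤ _ := by nlinarith

/-- **Upper bound.** -/
theorem main_upper : ∃ (C : ℝ) (X₀ : ℕ), 0 < C ∧ ∀ X P : ℕ, X₀ ≤ X → X₀ ≤ P →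
    (#{a ∈ Ioc 0 X | 1 ≤ #(Rp a P)} : ℝ) ≤ C * (EE X P * X) := by
  obtain ⟨C, D, hC, h⟩ := sum_card_Rp_le
  refine ⟨C, D, hC, fun X P hX hP => le_trans ?_ (h X P hX hP)⟩
  have h1 : (#{a ∈ Ioc 0 X | 1 ≤ #(Rp a P)} : ℝ)
      = ∑ a ∈ Ioc 0 X, if 1 ≤ #(Rp a P) then (1 : ℝ) else 0 := by
    rw [← sum_filter, sum_const, nsmul_eq_mul, mul_one]
  rw [h1]
  refine sum_le_sum fun a _ => ?_
  split_ifs with h2
  · exact_mod_cast h2
  · exact Nat.cast_nonneg _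

end Pool.Agent.helper85.SQ
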